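import Mathlib

namespace Pool.Agent.MP_d2168f_ag.Sq

/-- The rational function `r` is regular: it is a quotient `a / g` of elements of the coordinate
ring `B` whose denominator `g` has no zero at a `K`-point. -/
def IsRegFn (K B : Type) [Field K] [CommRing B] [IsDomain B] [Algebra K B] (r : FractionRing B) :
    Prop :=
  ∃ a g : B, (∀ x : B →ₐ[K] K, x g ≠ 0) ∧
    r = algebraMap B (FractionRing B) a / algebraMap B (FractionRing B) g

end Pool.Agent.MP_d2168f_ag.Sq
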