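import Pool.Agent.MP_d2168f_ag.Sq.Sph
import Pool.Agent.MP_d2168f_ag.Sq.Defs

/-! On the sphere a sum of two squares of rational functions that is regular need not be a sum of
two squares of regular functions. -/

set_option autoImplicit false

namespace Pool.Agent.MP_d2168f_ag.Sq

open Complex
open scoped ComplexConjugate

theorem exists_log (h : ℂ → ℂ) (hc : Continuous h) (h0 : ∀ z, h z ≠ 0) :
    ∃ L : ℂ → ℂ, Continuous L ∧ ∀ z, exp (L z) = h z := by
  obtain ⟨L, ⟨-, hL⟩, -⟩ := isCoveringMap_exp.existsUnique_continuousMap_lifts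
    (⟨fun z => ⟨h z, h0 z⟩, hc.subtype_mk _⟩ : C(ℂ, {z : ℂ // z ≠ 0})) 0 (log (h 0))
    (Subtype.ext (exp_log (h0 0)))
  exact ⟨L, L.continuous, fun z => congrArg Subtype.val (congrFun hL z)⟩

theorem no_wind (A B : ℂ → ℂ) (hA : Continuous A) (hB : Continuous B) (hA0 : ∀ z, A z ≠ 0)
    (hB0 : ∀ z, B z ≠ 0) (h : ∀ s : ℂ, ‖s‖ = 1 → s ^ 2 * A s = B s) : False := by
  obtain ⟨a, ha, ha'⟩ := exists_log A hA hA0
  obtain ⟨b, hb, hb'⟩ := exists_log B hB hB0
  let d : ℝ → ℂ := fun θ => b (exp (θ * I)) - a (exp (θ * I)) - 2 * (θ * I)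
  have hd : Continuous d := by fun_prop
  have h1 : ∀ θ, exp (d θ) = 1 := by
    intro θ
    have e : exp (2 * (θ * I)) = exp (θ * I) ^ 2 := by rw [← exp_nat_mul]; norm_num
    rw [exp_sub, exp_sub, ha', hb', ← h _ (norm_exp_ofReal_mul_I θ), e]
    field_simp [hA0 _, exp_ne_zero _]
  have h2 := isCoveringMap_exp.const_of_comp hd (fun θ θ' => Subtype.ext (by simp [h1]))
    0 (2 * Real.pi)
  simp only [d] at h2
  rw [show ((2 * Real.pi : ℝ) : ℂ) * I = 2 * Real.pi * I by push_cast; ring,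
    exp_two_pi_mul_I] at h2
  simp only [ofReal_zero, zero_mul, exp_zero, mul_zero, sub_zero] at h2
  exact two_pi_I_ne_zero (by linear_combination h2 / 2)

section poly
open Polynomial
open scoped Polynomial.Bivariate

/-- complex points of the sphere -/
noncomputable def cp (z ζ : ℂ) : Fin 3 → ℂ :=
  ![(z + ζ) / (1 + z * ζ), -I * (z - ζ) / (1 + z * ζ), (z * ζ - 1) / (1 + z * ζ)]

theorem cp_rel {z ζ : ℂ} (h : 1 + z * ζ ≠ 0) : cp z ζ 0 ^ 2 + cp z ζ 1 ^ 2 + cp z ζ 2 ^ 2 = 1 := by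
  simp only [cp, Matrix.cons_val_zero, Matrix.cons_val_one, Matrix.cons_val]
  field_simp
  linear_combination (z - ζ) ^ 2 * I_sq

/-- `h` times the `k`-th power of `1 + z ζ` is a polynomial -/
def Pol (k : ℕ) (N : ℂ[X][Y]) (h : ℂ → ℂ → ℂ) : Prop :=
  ∀ z ζ, 1 + z * ζ ≠ 0 → N.evalEval z ζ = (1 + z * ζ) ^ k * h z ζ

noncomputable def rho : ℂ[X][Y] := 1 + C X * Y

theorem rho_ev (z ζ : ℂ) : rho.evalEval z ζ = 1 + z * ζ := by simp [rho, evalEval_C]

theorem exists_pol (p : R3) : ∃ k N, Pol k N fun z ζ => MvPolynomial.aeval (cp z ζ) p := by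
  induction p using MvPolynomial.induction_on with
  | C r => exact ⟨0, C (C (r : ℂ)), fun z ζ _ => by simp⟩
  | add p q hp hq =>
    obtain ⟨k, N, h⟩ := hp
    obtain ⟨l, M, h'⟩ := hq
    refine ⟨k + l, N * rho ^ l + M * rho ^ k, fun z ζ h0 => ?_⟩
    simp only [evalEval_add, evalEval_mul, evalEval_pow, rho_ev, h z ζ h0, h' z ζ h0, map_add]
    ring
  | mul_X p i hp =>
    obtain ⟨k, N, h⟩ := hp
    refine ⟨k + 1, N * (![C X + Y, C (C (-I)) * (C X - Y), C X * Y - 1] : Fin 3 → ℂ[X][Y]) i,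
      fun z ζ h0 => ?_⟩
    rw [evalEval_mul, h z ζ h0]
    simp only [map_mul, MvPolynomial.aeval_X, pow_succ]
    generalize MvPolynomial.aeval (cp z ζ) p = c
    fin_cases i <;> simp [cp, evalEval_C] <;> field_simp

noncomputable def PP : ℂ[X][Y] := C (X ^ 3) * Y + C (-1)

theorem PP_ev (z ζ : ℂ) : PP.evalEval z ζ = z ^ 3 * ζ - 1 := by simp [PP, evalEval_C]; ring

theorem PP_prime : Prime PP :=
  (irreducible_C_mul_X_add_C (pow_ne_zero 3 X_ne_zero) isRelPrime_one_right.neg_right).prime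

theorem biv_ext {N : ℂ[X][Y]} (h : ∀ z ζ, N.evalEval z ζ = 0) : N = 0 := by
  ext i : 1
  apply Polynomial.funext
  intro z
  have : N.map (evalRingHom z) = 0 := Polynomial.funext fun ζ => by
    rw [map_evalRingHom_eval, h, eval_zero]
  have h2 := congrArg (fun p => p.coeff i) this
  simpa using h2

theorem cont_ev (M : ℂ[X][Y]) : Continuous fun z : ℂ => M.evalEval z (conj z) := by
  induction M using Polynomial.induction_on' with
  | add p q hp hq => simp only [evalEval_add]; exact hp.add hq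
  | monomial n a =>
    simp only [← C_mul_X_pow_eq_monomial, evalEval_mul, evalEval_pow, evalEval_C, evalEval_X]
    exact a.continuous.mul (continuous_conj.pow n)

end poly

/-- real points of the sphere -/
noncomputable def rp (ε : ℝ) (z : ℂ) : Fin 3 → ℝ :=
  ![2 * z.re / (1 + normSq z), 2 * z.im / (1 + normSq z), ε * (normSq z - 1) / (1 + normSq z)]

theorem den_pos (z : ℂ) : 0 < 1 + normSq z := by linarith [normSq_nonneg z]

theorem rp_rel {ε : ℝ} (hε : ε ^ 2 = 1) (z : ℂ) :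
    rp ε z 0 ^ 2 + rp ε z 1 ^ 2 + rp ε z 2 ^ 2 = 1 := by
  have := (den_pos z).ne'
  simp only [rp, Matrix.cons_val_zero, Matrix.cons_val_one, Matrix.cons_val]
  field_simp
  rw [hε, normSq_apply]
  ring

theorem cont_rp (ε : ℝ) (p : R3) : Continuous fun z => MvPolynomial.aeval (rp ε z) p := by
  have : Continuous (rp ε) := by
    refine continuous_pi fun i => ?_
    fin_cases i <;>
      exact Continuous.div (by fun_prop) (by fun_prop) fun z => (den_pos z).ne'
  exact (MvPolynomial.continuous_eval p).comp this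

theorem rho_real (z : ℂ) : 1 + z * conj z = ((1 + normSq z : ℝ) : ℂ) := by
  rw [mul_conj]; push_cast; rfl

theorem cp_rp (z : ℂ) (p : R3) :
    MvPolynomial.aeval (cp z (conj z)) p = ((MvPolynomial.aeval (rp 1 z) p : ℝ) : ℂ) := by
  have : cp z (conj z) = algebraMap ℝ ℂ ∘ rp 1 z := by
    funext i
    fin_cases i
    · simp [cp, rp, mul_conj, add_conj]
    · simp only [cp, rp, mul_conj, sub_conj]
      simp
      congr 1
      linear_combination (-2 * z.im) * I_sq
    · simp [cp, rp, mul_conj]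
  rw [this, MvPolynomial.aeval_algebraMap_apply]
  rfl

open MvPolynomial in
noncomputable def fp : R3 := 16 * X 2 ^ 2 + 4 * X 1 ^ 2 * (X 0 ^ 2 + X 1 ^ 2)

theorem fp_cp {z ζ : ℂ} (h : 1 + z * ζ ≠ 0) : (1 + z * ζ) ^ 4 * MvPolynomial.aeval (cp z ζ) fp =
    16 * (z ^ 3 * ζ - 1) * (ζ ^ 3 * z - 1) := by
  simp only [fp, map_add, map_mul, map_pow, MvPolynomial.aeval_X, map_ofNat, cp,
    Matrix.cons_val_zero, Matrix.cons_val_one, Matrix.cons_val]
  field_simp
  linear_combination (4 * (z - ζ) ^ 2 * ((z + ζ) ^ 2 + (I ^ 2 - 1) * (z - ζ) ^ 2)) * I_sq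

theorem no_div (p q g : R3) (hg : ∀ x : S2 →ₐ[ℝ] ℝ, x (mk g) ≠ 0)
    (h : mk p ^ 2 + mk q ^ 2 = mk g ^ 2 * mk fp) (k : ℕ) (M : Polynomial (Polynomial ℂ))
    (hM : Pol k (PP * M) fun z ζ =>
      MvPolynomial.aeval (cp z ζ) p + I * MvPolynomial.aeval (cp z ζ) q) : False := by
  have hv : ∀ (ε : ℝ) (hε : ε ^ 2 = 1) (z : ℂ), MvPolynomial.aeval (rp ε z) g ≠ 0 ∧
      normSq ((MvPolynomial.aeval (rp ε z) p : ℝ) + I * (MvPolynomial.aeval (rp ε z) q : ℝ)) =
        MvPolynomial.aeval (rp ε z) g ^ 2 * MvPolynomial.aeval (rp ε z) fp := by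
    intro ε hε z
    have h1 := congrArg (ev (rp ε z) (rp_rel hε z)) h
    simp only [map_add, map_mul, map_pow, ev_mk] at h1
    refine ⟨hg (ev (rp ε z) (rp_rel hε z)), ?_⟩
    rw [mul_comm I, normSq_add_mul_I, h1]
  have hρ : ∀ z : ℂ, 1 + z * conj z ≠ 0 := fun z => by
    rw [rho_real]; exact_mod_cast (den_pos z).ne'
  have hM0 : ∀ z : ℂ, M.evalEval z (conj z) ≠ 0 := by
    have e : (fun z : ℂ => normSq (M.evalEval z (conj z)) * (1 + normSq z) ^ 4) =
        fun z => 16 * ((1 + normSq z) ^ k) ^ 2 * MvPolynomial.aeval (rp 1 z) g ^ 2 := by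
      refine Continuous.ext_on (((Set.finite_singleton (-1 : ℂ)).insert 1).countable.dense_compl ℂ)
        ((continuous_normSq.comp (cont_ev M)).mul (by fun_prop))
        (Continuous.mul (by fun_prop) ((cont_rp 1 g).pow 2)) fun z hz => ?_
      have h1 := congrArg normSq (hM z _ (hρ z))
      have h2 := fp_cp (hρ z)
      have h3 : conj z ^ 3 * z - 1 = conj (z ^ 3 * conj z - 1) := by simp
      rw [h3, mul_assoc, rho_real, mul_conj, cp_rp] at h2
      have h4 : (1 + normSq z) ^ 4 * MvPolynomial.aeval (rp 1 z) fp =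
          16 * normSq (z ^ 3 * conj z - 1) := by exact_mod_cast h2
      simp only [Polynomial.evalEval_mul, PP_ev, map_mul, map_pow, cp_rp, rho_real, normSq_ofReal,
        (hv 1 (by norm_num) z).2] at h1
      have h5 : normSq (z ^ 3 * conj z - 1) ≠ 0 := by
        intro h0
        have h6 : z ^ 3 * conj z = 1 := sub_eq_zero.1 (normSq_eq_zero.1 h0)
        have h7 : normSq z = 1 := by
          have := congrArg normSq h6
          rw [map_mul, map_pow, normSq_conj, map_one, ← pow_succ] at this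
          exact (pow_eq_one_iff_of_nonneg (normSq_nonneg z) (by norm_num)).1 this
        have h8 : z * z = 1 := by
          have := mul_conj z
          rw [h7] at this
          push_cast at this
          linear_combination h6 - z ^ 2 * this
        exact hz (mul_self_eq_one_iff.1 h8)
      apply mul_left_cancel₀ h5
      rw [mul_pow] at h1
      linear_combination (1 + normSq z) ^ 4 * h1 +
        ((1 + normSq z) ^ k) ^ 2 * MvPolynomial.aeval (rp 1 z) g ^ 2 * h4
    intro z h0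
    have h1 := congrFun e z
    simp only [h0, map_zero, zero_mul] at h1
    have := den_pos z
    have := (hv 1 (by norm_num) z).1
    exact absurd h1.symm (by positivity)
  let u : ℂ → ℂ := fun s => s / (max 1 ‖s‖ : ℝ)
  have hu0 : ∀ s : ℂ, (0 : ℝ) < max 1 ‖s‖ := fun s => lt_max_of_lt_left one_pos
  have hu : Continuous u :=
    continuous_id.div (by fun_prop) fun s => by exact_mod_cast (hu0 s).ne'
  have hu1 : ∀ s, ‖u s‖ ≤ 1 := fun s => by
    simp only [u, norm_div, norm_real, Real.norm_of_nonneg (hu0 s).le]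
    exact (div_le_one (hu0 s)).2 (le_max_right _ _)
  refine no_wind (fun s => (16 - conj (u s) ^ 2) * M.evalEval (2 * s) (conj (2 * s)))
    (fun s => 5 ^ k * ((MvPolynomial.aeval (rp (-1) (u s / 2)) p : ℝ) +
      I * (MvPolynomial.aeval (rp (-1) (u s / 2)) q : ℝ))) ?_ ?_ (fun s => ?_) (fun s => ?_)
    fun s hs => ?_
  · exact Continuous.mul (by fun_prop) ((cont_ev M).comp (by fun_prop))
  · have a1 := (cont_rp (-1) p).comp (hu.div_const 2)
    have a2 := (cont_rp (-1) q).comp (hu.div_const 2)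
    exact continuous_const.mul ((continuous_ofReal.comp a1).add
      (continuous_const.mul (continuous_ofReal.comp a2)))
  · refine mul_ne_zero (fun h0 => ?_) (hM0 _)
    have h1 := congrArg norm (sub_eq_zero.1 h0)
    simp only [norm_pow, norm_conj, Complex.norm_ofNat] at h1
    nlinarith [hu1 s, norm_nonneg (u s)]
  · refine mul_ne_zero (by norm_num) fun h0 => ?_
    obtain ⟨h1, h2⟩ := hv (-1) (by norm_num) (u s / 2)
    rw [h0, map_zero] at h2
    have h3 : normSq (u s / 2) < 1 := by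
      rw [normSq_eq_norm_sq, norm_div, Complex.norm_ofNat]
      nlinarith [hu1 s, norm_nonneg (u s)]
    have h4 : 0 < rp (-1) (u s / 2) 2 := div_pos (by linarith) (den_pos _)
    have h5 : 0 < MvPolynomial.aeval (rp (-1) (u s / 2)) fp := by
      simp only [fp, map_add, map_mul, map_pow, MvPolynomial.aeval_X, map_ofNat]
      positivity
    exact absurd h2.symm (by positivity)
  · have h1 : normSq s = 1 := by rw [normSq_eq_norm_sq, hs]; norm_num
    have h2 : u s = s := by simp [u, hs]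
    have h3 : rp (-1) (s / 2) = rp 1 (2 * s) := by
      funext i
      fin_cases i <;> simp [rp, h1] <;> ring
    have h4 := hM (2 * s) _ (hρ _)
    have h5 := mul_conj s
    rw [h1] at h5
    push_cast at h5
    simp only [Polynomial.evalEval_mul, PP_ev, cp_rp] at h4
    have h6 : 1 + 2 * s * conj (2 * s) = 5 := by
      rw [map_mul, map_ofNat]; linear_combination 4 * h5
    have h7 : (2 * s) ^ 3 * conj (2 * s) - 1 = s ^ 2 * (16 - conj s ^ 2) := by
      rw [map_mul, map_ofNat]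
      linear_combination (16 * s ^ 2 + s * conj s + 1) * h5
    simp only [h2, h3]
    rw [h6, h7] at h4
    rw [← h4]
    ring

theorem not_two (p q g : R3) (hg : ∀ x : S2 →ₐ[ℝ] ℝ, x (mk g) ≠ 0)
    (h : mk p ^ 2 + mk q ^ 2 = mk g ^ 2 * mk fp) : False := by
  obtain ⟨k1, N1, h1⟩ := exists_pol p
  obtain ⟨k2, N2, h2⟩ := exists_pol q
  obtain ⟨k3, G, h3⟩ := exists_pol g
  have hN : ∀ c : ℂ, Pol (k1 + k2) (N1 * rho ^ k2 + Polynomial.C (Polynomial.C c) * N2 * rho ^ k1)
      fun z ζ => MvPolynomial.aeval (cp z ζ) p + c * MvPolynomial.aeval (cp z ζ) q := by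
    intro c z ζ h0
    simp only [Polynomial.evalEval_add, Polynomial.evalEval_mul, Polynomial.evalEval_pow, rho_ev,
      Polynomial.evalEval_CC, h1 z ζ h0, h2 z ζ h0]
    ring
  obtain ⟨A, hA⟩ : ∃ A, Pol (k1 + k2) A fun z ζ =>
    MvPolynomial.aeval (cp z ζ) p + I * MvPolynomial.aeval (cp z ζ) q := ⟨_, hN I⟩
  obtain ⟨A', hA'⟩ : ∃ A, Pol (k1 + k2) A fun z ζ =>
    MvPolynomial.aeval (cp z ζ) p + -I * MvPolynomial.aeval (cp z ζ) q := ⟨_, hN (-I)⟩
  have key : rho ^ (5 + 2 * k3) * (A * A') - PP * (Polynomial.C (Polynomial.C 16) * rho ^ (1 + 2 * (k1 + k2)) * G ^ 2 *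
      (Polynomial.X ^ 3 * Polynomial.C Polynomial.X - 1)) = 0 := by
    refine biv_ext fun z ζ => ?_
    by_cases h0 : 1 + z * ζ = 0
    · simp [rho_ev, h0, pow_add]
    have e := congrArg (ev (cp z ζ) (cp_rel h0)) h
    simp only [map_add, map_mul, map_pow, ev_mk] at e
    have e2 := fp_cp h0
    simp only [Polynomial.evalEval_sub, Polynomial.evalEval_mul, Polynomial.evalEval_pow, rho_ev,
      hA z ζ h0, hA' z ζ h0, h3 z ζ h0, PP_ev, Polynomial.evalEval_X, Polynomial.evalEval_C,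
      Polynomial.eval_X, Polynomial.evalEval_one, Polynomial.eval_C]
    generalize 1 + z * ζ = ρ at e2 ⊢
    linear_combination ρ ^ (5 + 2 * k3 + 2 * (k1 + k2)) * e +
      ρ ^ (1 + 2 * k3 + 2 * (k1 + k2)) * MvPolynomial.aeval (cp z ζ) g ^ 2 * e2 -
      ρ ^ (5 + 2 * k3 + 2 * (k1 + k2)) * MvPolynomial.aeval (cp z ζ) q ^ 2 * I_sq
  have hd : PP ∣ rho ^ (5 + 2 * k3) * (A * A') := ⟨_, sub_eq_zero.1 key⟩
  rcases PP_prime.dvd_or_dvd hd with hd | hd
  · obtain ⟨M, hM⟩ := PP_prime.dvd_of_dvd_pow hd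
    have := congrArg (Polynomial.evalEval 1 1) hM
    rw [Polynomial.evalEval_mul, PP_ev, rho_ev] at this
    norm_num at this
  rcases PP_prime.dvd_or_dvd hd with ⟨M, hM⟩ | ⟨M, hM⟩
  · exact no_div p q g hg h _ M (hM ▸ hA)
  · refine no_div p (-q) g hg (by rw [map_neg]; linear_combination h) (k1 + k2) M ?_
    rw [← hM]
    intro z ζ h0
    rw [hA' z ζ h0]
    simp

open MvPolynomial in
theorem neg : ∃ e : Fin 2 → FractionRing S2, IsRegFn ℝ S2 (∑ i, e i ^ 2) ∧
    ¬ ∃ a : Fin 2 → FractionRing S2, (∀ i, IsRegFn ℝ S2 (a i)) ∧ ∑ i, a i ^ 2 = ∑ i, e i ^ 2 := by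
  let ι := algebraMap S2 (FractionRing S2)
  let x0 : S2 →ₐ[ℝ] ℝ := ev ![0, 0, -1] (by simp)
  have hne : ∀ g : S2, x0 g ≠ 0 → ι g ≠ 0 := fun g hg h => by
    rw [(map_eq_zero_iff _ (IsFractionRing.injective S2 _)).1 h, map_zero] at hg
    exact hg rfl
  have hw : 1 - ι (mk (X 2)) ≠ 0 := by
    have := hne (1 - mk (X 2)) (by simp [x0, ev_mk])
    rwa [map_sub, map_one] at this
  have hr := congrArg ι rel
  simp only [map_add, map_pow, map_one] at hr
  have hf : ι (mk fp) = 16 * ι (mk (X 2)) ^ 2 +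
      4 * ι (mk (X 1)) ^ 2 * (ι (mk (X 0)) ^ 2 + ι (mk (X 1)) ^ 2) := by
    simp only [fp, map_add, map_mul, map_pow, map_ofNat]
  generalize ι (mk (X 0)) = x at hr hf
  generalize ι (mk (X 1)) = y at hr hf
  generalize ι (mk (X 2)) = w at hr hf hw
  have he : ∑ i, (![(x ^ 2 - y ^ 2) * (1 + w) / (1 - w) - (1 - w) ^ 2,
      2 * x * y * (1 + w) / (1 - w)] : Fin 2 → FractionRing S2) i ^ 2 = ι (mk fp) := by
    rw [hf, Fin.sum_univ_two]
    simp only [Matrix.cons_val_zero, Matrix.cons_val_one]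
    field_simp
    linear_combination ((x ^ 2 + y ^ 2 + 1 - w ^ 2) * (1 + w) ^ 2 - 2 * (1 + w) * (1 - w) ^ 3 -
      4 * y ^ 2 * (1 - w) ^ 2) * hr
  refine ⟨_, ⟨mk fp, 1, by simp, by rw [he]; simp [ι]⟩, ?_⟩
  rintro ⟨a, ha, hs⟩
  obtain ⟨p, g, hg, e0⟩ := ha 0
  obtain ⟨q, g', hg', e1⟩ := ha 1
  obtain ⟨p, rfl⟩ := mk_surj p
  obtain ⟨q, rfl⟩ := mk_surj q
  obtain ⟨g, rfl⟩ := mk_surj g
  obtain ⟨g', rfl⟩ := mk_surj g'
  refine not_two (p * g') (q * g) (g * g') (fun x => ?_) (IsFractionRing.injective S2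
    (FractionRing S2) ?_)
  · rw [map_mul, map_mul]
    exact mul_ne_zero (hg x) (hg' x)
  · rw [he, Fin.sum_univ_two, e0, e1] at hs
    have b1 := hne _ (hg x0)
    have b2 := hne _ (hg' x0)
    simp only [map_add, map_mul, map_pow]
    change _ = _ * ι (mk fp)
    rw [← hs]
    simp only [ι] at b1 b2
    field_simp

end Pool.Agent.MP_d2168f_ag.Sq
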