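import Pool.Agent.Mg.Fd2168f.G14d59c
import Pool.Agent.MP_d2168f_ag.Sq.Defs

/-! Descent of sums of `n` squares for `n ≠ 2` on every surface. -/

set_option autoImplicit false

namespace Pool.Agent.MP_d2168f_ag.Sq

section abs
variable {K A F : Type*} [Field K] [CommRing A] [Algebra K A] [Field F] [Algebra A F]

theorem sat (z : A →ₐ[K] K) (D : Ideal A) (π : A)
    (h : ∀ Q : Ideal A, Q.IsPrime → D ≤ Q → Q ≤ pt z → π ∈ Q) :
    ∃ (N : ℕ) (a : A), z a ≠ 0 ∧ a * π ^ N ∈ D := by
  let S : Submonoid A :=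
    { carrier := {s | ∃ (N : ℕ) (a : A), z a ≠ 0 ∧ s = a * π ^ N}
      mul_mem' := by
        rintro _ _ ⟨N, a, ha, rfl⟩ ⟨M, b, hb, rfl⟩
        exact ⟨N + M, a * b, by simp [ha, hb], by ring⟩
      one_mem' := ⟨0, 1, by simp, by simp⟩ }
  by_contra hcon
  have hdis : Disjoint (D : Set A) S := by
    rw [Set.disjoint_left]
    rintro _ hs ⟨N, a, ha, rfl⟩
    exact hcon ⟨N, a, ha, hs⟩
  obtain ⟨Q, hQ, hDQ, hQS⟩ := D.exists_le_prime_disjoint S hdis
  rw [Set.disjoint_left] at hQS
  have hle : Q ≤ pt z := fun a ha => by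
    by_contra hne
    exact hQS ha ⟨0, a, hne, by simp⟩
  exact hQS (h Q hQ hDQ hle) ⟨1, 1, by simp, by simp⟩

variable [Algebra K F] [IsScalarTower K A F] [IsDomain A] [IsFractionRing A F] [IsNoetherianRing A]

theorem sq_descends (hK : RealF K) (hP : Pts K A)
    (hreg : ∀ φ : A →ₐ[K] K, IsRegularLocalRing (Localization.AtPrime (pt φ)))
    (hdep : ∀ u : Fin 3 → F, ¬ AlgebraicIndependent K u)
    {e : Fin 1 → F} {f : A} (hf : ∑ i, e i ^ 2 = algebraMap A F f) : Int A (e 0) := by
  have := hK.infinite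
  have hdepA : ∀ u : Fin 3 → A, ¬ AlgebraicIndependent K u := fun u hu =>
    hdep _ (hu.map' (f := IsScalarTower.toAlgHom K A F) (IsFractionRing.injective A F))
  refine hP.int fun z => ?_
  by_cases hD : den A e ≤ pt z
  swap
  · obtain ⟨d, hd, hd'⟩ := SetLike.not_le_iff_exists.mp hD
    exact ⟨d, hd', hd 0⟩
  obtain ⟨s, t, hst⟩ := reg2_of_bad hK hdepA hf z (hreg z) hD
  obtain ⟨g, hg, hg0⟩ := (Submodule.ne_bot_iff _).mp (den_ne_bot (A := A) e)
  obtain ⟨M, hM⟩ : ∃ M, g ∉ pt z ^ (M + 1) := by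
    by_contra hcon
    push Not at hcon
    apply hg0
    rw [← Ideal.mem_bot, ← Ideal.iInf_pow_eq_bot_of_isDomain (pt z) (pt_ne_top z), Ideal.mem_iInf]
    exact fun k => Ideal.pow_le_pow_right (by omega) (hcon k)
  obtain ⟨k, -, hk, hk'⟩ := exists_order (pt z) hM
  obtain ⟨π, hπ, -⟩ := hst.exists_param hk hk' ∅ (by simp)
  obtain ⟨N, a, ha, haN⟩ := sat z (den A e) π fun Q hQ h1 h2 => by
    by_cases hne : Q = pt z
    · exact hne ▸ hπ.mem
    · obtain ⟨p, hp, hgen⟩ := hst.prime_principal hQ h2 hne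
      refine absurd h1 (not_den_le hf z h2 (fun v hv i => ?_) hp hgen)
      rw [Fin.sum_univ_one] at hv
      rw [Subsingleton.elim i 0]
      exact hQ.mem_of_pow_mem 2 hv
  obtain ⟨b, hb, hbr⟩ := hπ.loc (N := N) (r := algebraMap A F a * e 0)
    (by convert haN 0 using 1; rw [map_mul]; ring)
    (by convert (Int.map a).mul (hg 0) using 1; ring)
  exact ⟨b * a, by simp [ha, hb], by rw [map_mul, mul_assoc]; exact hbr⟩

theorem all_descends (hK : RealF K) (hP : Pts K A)
    (hreg : ∀ φ : A →ₐ[K] K, IsRegularLocalRing (Localization.AtPrime (pt φ)))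
    (hdep : ∀ u : Fin 3 → F, ¬ AlgebraicIndependent K u) {n : ℕ} (hn : n ≠ 2)
    {e : Fin n → F} {f : A} (hf : ∑ i, e i ^ 2 = algebraMap A F f) :
    ∃ a : Fin n → F, (∀ i, Int A (a i)) ∧ ∑ i, a i ^ 2 = ∑ i, e i ^ 2 := by
  rcases Nat.lt_or_ge n 3 with h | h
  · obtain rfl | rfl : n = 0 ∨ n = 1 := by omega
    · exact ⟨e, fun i => i.elim0, rfl⟩
    · exact ⟨e, fun i => Subsingleton.elim 0 i ▸ sq_descends hK hP hreg hdep hf, rfl⟩
  · obtain ⟨a, ha⟩ := sum_sq_descends hK hP hreg hdep h hf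
    exact ⟨fun i => algebraMap A F (a i), fun i => Int.map _, by rw [hf, ← ha]; simp⟩

end abs

theorem pos {n : ℕ} (hn : n ≠ 2) (K : Type) [Field K] (hK : ¬ IsSumSq (-1 : K))
    (B : Type) [CommRing B] [IsDomain B] [Algebra K B] [Algebra.FiniteType K B]
    (htr : Algebra.trdeg K (FractionRing B) = 2)
    (hreg : ∀ (p : Ideal B) [p.IsPrime], (∃ x : B →ₐ[K] K, p = RingHom.ker x) →
      IsRegularLocalRing (Localization.AtPrime p))
    (e : Fin n → FractionRing B) (he : IsRegFn K B (∑ i, e i ^ 2)) :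
    ∃ a : Fin n → FractionRing B, (∀ i, IsRegFn K B (a i)) ∧ ∑ i, a i ^ 2 = ∑ i, e i ^ 2 := by
  have hR := realF_of_not_isSumSq hK
  have := hR.infinite
  have : IsNoetherianRing B := Algebra.FiniteType.isNoetherianRing K B
  rcases isEmpty_or_nonempty (B →ₐ[K] K) with hx | ⟨⟨x₀⟩⟩
  · refine ⟨e, fun i => ?_, rfl⟩
    obtain ⟨a, g, -, h⟩ := IsFractionRing.div_surjective (A := B) (e i)
    exact ⟨a, g, fun x => hx.elim x, h.symm⟩
  have hS : nonvanishing K B ≤ nonZeroDivisors B := fun g hg =>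
    mem_nonZeroDivisors_of_ne_zero fun h => hg x₀ (by simp [h])
  set A := Localization (nonvanishing K B)
  set F := FractionRing B
  have : IsDomain A := IsLocalization.isDomain_localization hS
  have : IsNoetherianRing A := IsLocalization.isNoetherianRing (nonvanishing K B) A inferInstance
  let _ : Algebra A F :=
    IsLocalization.localizationAlgebraOfSubmonoidLe A F (nonvanishing K B) (nonZeroDivisors B) hS
  have : IsScalarTower B A F :=
    IsLocalization.localization_isScalarTower_of_submonoid_le A F _ _ hS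
  have : IsScalarTower K A F := IsScalarTower.of_algebraMap_eq fun c => by
    rw [IsScalarTower.algebraMap_apply K B A, ← IsScalarTower.algebraMap_apply B A F,
      ← IsScalarTower.algebraMap_apply K B F]
  have : IsFractionRing A F :=
    IsFractionRing.isFractionRing_of_isDomain_of_isLocalization (nonvanishing K B) A F
  have hregA : ∀ φ : A →ₐ[K] K, IsRegularLocalRing (Localization.AtPrime (pt φ)) := by
    intro φ
    have := hreg ((pt φ).comap (algebraMap B A)) ⟨φ.comp (IsScalarTower.toAlgHom K B A), rfl⟩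
    exact IsRegularLocalRing.of_ringEquiv
      (IsLocalization.localizationLocalizationAtPrimeIsoLocalization
        (nonvanishing K B) (pt φ)).toRingEquiv
  have hdep : ∀ u : Fin 3 → F, ¬ AlgebraicIndependent K u := fun u hu => by
    have h := hu.cardinalMk_le_trdeg
    rw [htr, Cardinal.mk_fin] at h
    norm_num at h
  have key : ∀ r : F, Int A r ↔ IsRegFn K B r := by
    intro r
    have h0 : ∀ (a : B) (s : nonvanishing K B), algebraMap A F (IsLocalization.mk' A a s) =
        algebraMap B F a / algebraMap B F s := by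
      intro a s
      have hs : algebraMap B F s ≠ 0 := by
        simpa using nonZeroDivisors.ne_zero (hS s.2)
      rw [eq_div_iff hs, IsScalarTower.algebraMap_apply B A F (s : B), ← map_mul,
        IsLocalization.mk'_spec, ← IsScalarTower.algebraMap_apply]
    constructor
    · rintro ⟨c, rfl⟩
      obtain ⟨⟨a, s⟩, rfl⟩ := IsLocalization.mk'_surjective (nonvanishing K B) c
      exact ⟨a, s, s.2, h0 a s⟩
    · rintro ⟨a, g, hg, rfl⟩
      exact ⟨IsLocalization.mk' A a (⟨g, hg⟩ : nonvanishing K B), h0 a ⟨g, hg⟩⟩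
  obtain ⟨f, hf⟩ := (key _).2 he
  obtain ⟨a, ha, hs⟩ := all_descends hR (pts_localization hR) hregA hdep hn hf.symm
  exact ⟨a, fun i => (key _).1 (ha i), hs⟩

end Pool.Agent.MP_d2168f_ag.Sq
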