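import Mathlib

/-! The coordinate ring of the real sphere: a domain of transcendence degree two, regular at its
real points. -/

set_option autoImplicit false

namespace Pool.Agent.MP_d2168f_ag.Sq

open MvPolynomial

abbrev R3 : Type := MvPolynomial (Fin 3) ℝ

noncomputable def qs : R3 := X 0 ^ 2 + X 1 ^ 2 + X 2 ^ 2 - 1

abbrev S2 : Type := R3 ⧸ Ideal.span {qs}

theorem qs_prime : Prime qs := by
  have e : finSuccEquiv ℝ 2 qs =
      Polynomial.X ^ 2 + Polynomial.C (X 0 ^ 2 + X 1 ^ 2 - 1 : MvPolynomial (Fin 2) ℝ) := by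
    have h1 : finSuccEquiv ℝ 2 (X 1) = Polynomial.C (X 0) := finSuccEquiv_X_succ (j := 0)
    have h2 : finSuccEquiv ℝ 2 (X 2) = Polynomial.C (X 1) := finSuccEquiv_X_succ (j := 1)
    simp only [qs, map_sub, map_add, map_pow, map_one, finSuccEquiv_X_zero, h1, h2]
    ring
  rw [← MulEquiv.prime_iff (finSuccEquiv ℝ 2), e]
  apply Irreducible.prime
  have hm : (Polynomial.X ^ 2 + Polynomial.C (X 0 ^ 2 + X 1 ^ 2 - 1 : MvPolynomial (Fin 2) ℝ)).Monic :=
    Polynomial.monic_X_pow_add_C _ two_ne_zero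
  rw [hm.irreducible_iff_roots_eq_zero_of_degree_le_three
    (by rw [Polynomial.natDegree_X_pow_add_C]) (by rw [Polynomial.natDegree_X_pow_add_C]; norm_num),
    Multiset.eq_zero_iff_forall_notMem]
  intro r hr
  rw [Polynomial.mem_roots hm.ne_zero, Polynomial.IsRoot.def] at hr
  have := congrArg (eval ![2, 0]) hr
  simp at this
  nlinarith [sq_nonneg (eval ![2, 0] r)]

instance : IsDomain S2 :=
  (Ideal.Quotient.isDomain_iff_prime _).2
    ((Ideal.span_singleton_prime qs_prime.ne_zero).2 qs_prime)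

noncomputable def mk : R3 →ₐ[ℝ] S2 := Ideal.Quotient.mkₐ ℝ _

theorem mk_surj : Function.Surjective mk := Ideal.Quotient.mkₐ_surjective ℝ _

theorem mk_qs : mk qs = 0 := Ideal.Quotient.eq_zero_iff_mem.2 (Ideal.mem_span_singleton_self _)

theorem rel : mk (X 0) ^ 2 + mk (X 1) ^ 2 + mk (X 2) ^ 2 = 1 := by
  have := mk_qs
  simp only [qs, map_sub, map_add, map_pow, map_one] at this
  linear_combination this

/-- evaluation at a point of the sphere with coordinates in `T` -/
noncomputable def ev {T : Type} [CommRing T] [Algebra ℝ T] (a : Fin 3 → T)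
    (h : a 0 ^ 2 + a 1 ^ 2 + a 2 ^ 2 = 1) : S2 →ₐ[ℝ] T :=
  Ideal.Quotient.liftₐ _ (aeval a) fun p hp => by
    obtain ⟨c, rfl⟩ := Ideal.mem_span_singleton'.1 hp
    simp [qs, h]

theorem ev_mk {T : Type} [CommRing T] [Algebra ℝ T] (a : Fin 3 → T)
    (h : a 0 ^ 2 + a 1 ^ 2 + a 2 ^ 2 = 1) (p : R3) : ev a h (mk p) = aeval a p := rfl

theorem height_ker (n : ℕ) (φ : MvPolynomial (Fin n) ℝ →ₐ[ℝ] ℝ) :
    (n : ℕ∞) ≤ (RingHom.ker φ).height := by
  induction n with
  | zero => simp
  | succ n ih =>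
    let e := finSuccEquiv ℝ n
    let ψ : Polynomial (MvPolynomial (Fin n) ℝ) →ₐ[ℝ] ℝ := φ.comp e.symm.toAlgHom
    let χ : MvPolynomial (Fin n) ℝ →ₐ[ℝ] ℝ := ψ.comp (IsScalarTower.toAlgHom ℝ _ _)
    have h1 : RingHom.ker φ = (RingHom.ker ψ).comap e.toRingEquiv := by
      ext p; simp [ψ, RingHom.mem_ker]
    have : (RingHom.ker ψ).IsMaximal :=
      RingHom.ker_isMaximal_of_surjective ψ fun r => ⟨algebraMap ℝ _ r, ψ.commutes r⟩
    have : (RingHom.ker ψ).LiesOver (RingHom.ker χ) := ⟨rfl⟩
    rw [h1, RingEquiv.height_comap, Polynomial.height_eq_height_add_one (RingHom.ker χ)]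
    push_cast
    gcongr
    exact ih χ

theorem sub_mem_span (φ : R3 →ₐ[ℝ] ℝ) (p : R3) :
    p - C (φ p) ∈ Ideal.span (Set.range fun i => (X i - C (φ (X i)) : R3)) := by
  induction p using MvPolynomial.induction_on with
  | C r =>
    have : φ (C r) = r := φ.commutes r
    simp [this]
  | add p q hp hq =>
    have := Ideal.add_mem _ hp hq
    convert this using 1
    simp only [map_add]; ring
  | mul_X p i hp =>
    have := Ideal.add_mem _ (Ideal.mul_mem_right (X i) _ hp)
      (Ideal.mul_mem_left _ (C (φ p)) (Ideal.subset_span ⟨i, rfl⟩))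
    convert this using 1
    simp only [map_mul]; ring

open Classical in
theorem span_two {L : Type} [CommRing L] (t c : Fin 3 → L) (j : Fin 3) (hu : IsUnit (c j))
    (hrel : ∑ i, t i * c i = 0) (i : Fin 3) :
    t i ∈ Ideal.span (((Finset.univ.erase j).image t : Finset L) : Set L) := by
  have h1 : ∀ i, i ≠ j → t i ∈ Ideal.span (((Finset.univ.erase j).image t : Finset L) : Set L) :=
    fun i hi => Ideal.subset_span (Finset.mem_coe.2 (Finset.mem_image_of_mem t (by simp [hi])))
  by_cases hi : i = j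
  · subst hi
    rw [← Finset.add_sum_erase _ _ (Finset.mem_univ i)] at hrel
    rw [← Ideal.mul_unit_mem_iff_mem _ hu, eq_neg_of_add_eq_zero_left hrel]
    exact neg_mem (Ideal.sum_mem _ fun k hk =>
      Ideal.mul_mem_right _ _ (h1 k (Finset.ne_of_mem_erase hk)))
  · exact h1 i hi

open Classical in
theorem S2_regular (p : Ideal S2) [p.IsPrime] (hp : ∃ x : S2 →ₐ[ℝ] ℝ, p = RingHom.ker x) :
    IsRegularLocalRing (Localization.AtPrime p) := by
  obtain ⟨x, hx⟩ := hp
  let φ : R3 →ₐ[ℝ] ℝ := x.comp mk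
  have hmap : (RingHom.ker φ).map (Ideal.Quotient.mk (Ideal.span {qs})) = p := by
    have : RingHom.ker φ = p.comap (Ideal.Quotient.mk (Ideal.span {qs})) := by
      rw [hx]; rfl
    rw [this, Ideal.map_comap_of_surjective _ Ideal.Quotient.mk_surjective]
  have : (RingHom.ker φ).IsPrime := RingHom.ker_isPrime φ
  have hq : qs ∈ RingHom.ker φ := by
    rw [RingHom.mem_ker]
    change x (mk qs) = 0
    rw [mk_qs, map_zero]
  have h3 := (height_ker 3 φ).trans (Ideal.height_le_height_add_one_of_mem hq)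
  rw [hmap] at h3
  have h2 : (2 : ℕ∞) ≤ p.height := by
    have : (2 : ℕ∞) + 1 ≤ p.height + 1 := by exact_mod_cast h3
    exact (ENat.add_le_add_iff_right (by simp)).1 this
  set L := Localization.AtPrime p
  let ι : R3 →+* L := (algebraMap S2 L).comp (Ideal.Quotient.mk _)
  let t : Fin 3 → L := fun i => ι (X i - C (φ (X i)))
  have ha : φ (X 0) ^ 2 + φ (X 1) ^ 2 + φ (X 2) ^ 2 = 1 := by
    have := congrArg x rel
    simpa [φ] using this
  obtain ⟨j, hj⟩ : ∃ j, φ (X j) ≠ 0 := by
    by_contra hcon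
    push Not at hcon
    simp [hcon] at ha
  have hrel : ∑ i, t i * ι (X i + C (φ (X i))) = 0 := by
    have h0 : ι qs = 0 := by
      change algebraMap S2 L (mk qs) = 0
      rw [mk_qs, map_zero]
    have h1 : (C (φ (X 0)) ^ 2 + C (φ (X 1)) ^ 2 + C (φ (X 2)) ^ 2 : R3) = 1 := by
      rw [← C_pow, ← C_pow, ← C_pow, ← C_add, ← C_add, ha, C_1]
    simp only [t, ← map_mul, ← map_sum]
    rw [← h0, Fin.sum_univ_three]
    congr 1
    unfold qs
    linear_combination -h1
  have hu : IsUnit (ι (X j + C (φ (X j)))) := by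
    refine (IsLocalization.AtPrime.isUnit_to_map_iff L p _).2 fun h => ?_
    have h' : X j + C (φ (X j)) ∈ RingHom.ker φ := by
      rw [hx] at h; exact h
    rw [RingHom.mem_ker, map_add, show φ (C (φ (X j))) = φ (X j) from φ.commutes _] at h'
    exact hj (by linarith)
  set T : Finset L := (Finset.univ.erase j).image t
  have ht : ∀ i, t i ∈ Ideal.span (T : Set L) := span_two t _ j hu hrel
  have hmax : IsLocalRing.maximalIdeal L = Ideal.span (T : Set L) := by
    have h7 : p.map (algebraMap S2 L) = (RingHom.ker φ).map ι := by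
      rw [← Ideal.map_map, hmap]
    rw [← Localization.AtPrime.map_eq_maximalIdeal, h7]
    apply le_antisymm
    · rw [Ideal.map_le_iff_le_comap]
      intro h hh
      have h1 := sub_mem_span φ h
      rw [RingHom.mem_ker.1 hh, map_zero, sub_zero] at h1
      refine (Ideal.span_le.2 ?_ : _ ≤ Ideal.comap ι _) h1
      rintro _ ⟨i, rfl⟩
      exact ht i
    · rw [Ideal.span_le]
      intro y hy
      obtain ⟨i, -, rfl⟩ := Finset.mem_image.1 hy
      refine Ideal.mem_map_of_mem _ ?_
      rw [RingHom.mem_ker, map_sub, show φ (C (φ (X i))) = φ (X i) from φ.commutes _, sub_self]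
  apply IsRegularLocalRing.of_spanFinrank_maximalIdeal_le
  rw [IsLocalization.AtPrime.ringKrullDim_eq_height p L, hmax]
  have h4 : (Ideal.span (T : Set L)).spanFinrank ≤ 2 := by
    refine (Submodule.spanFinrank_span_le_ncard_of_finite T.finite_toSet).trans ?_
    rw [Set.ncard_coe_finset]
    exact Finset.card_image_le.trans (by simp)
  have h5 : ((Ideal.span (T : Set L)).spanFinrank : ℕ∞) ≤ p.height :=
    le_trans (by exact_mod_cast h4) h2
  exact_mod_cast h5

theorem S2_trdeg : Algebra.trdeg ℝ (FractionRing S2) = 2 := by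
  have h0 : Algebra.trdeg S2 (FractionRing S2) = 0 :=
    have : Algebra.IsAlgebraic S2 (FractionRing S2) := IsLocalization.isAlgebraic _ (nonZeroDivisors S2)
    trdeg_eq_zero
  rw [← trdeg_add_eq ℝ S2, h0, add_zero]
  apply le_antisymm
  · let s : Set S2 := {mk (X 0), mk (X 1)}
    have : Algebra.IsIntegral (Algebra.adjoin ℝ s) S2 := ⟨fun b => by
      obtain ⟨p, rfl⟩ := mk_surj b
      have hin : ∀ c : S2, c ∈ Algebra.adjoin ℝ s → IsIntegral (Algebra.adjoin ℝ s) c :=
        fun c hc => isIntegral_algebraMap (x := (⟨c, hc⟩ : Algebra.adjoin ℝ s))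
      have a0 := hin _ (Algebra.subset_adjoin (Or.inl rfl))
      have a1 := hin _ (Algebra.subset_adjoin (Or.inr rfl))
      have a2 : IsIntegral (Algebra.adjoin ℝ s) (mk (X 2)) := by
        refine IsIntegral.of_pow two_pos ?_
        have : mk (X 2) ^ 2 = 1 - mk (X 0) ^ 2 - mk (X 1) ^ 2 := by linear_combination rel
        rw [this]
        exact (isIntegral_one.sub (a0.pow 2)).sub (a1.pow 2)
      induction p using MvPolynomial.induction_on with
      | C r => exact hin _ (mk.commutes r ▸ Subalgebra.algebraMap_mem _ r)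
      | add p q hp hq => rw [map_add]; exact hp.add hq
      | mul_X p i hp =>
        rw [map_mul]
        refine hp.mul ?_
        fin_cases i
        exacts [a0, a1, a2]⟩
    refine (Algebra.IsAlgebraic.trdeg_le_cardinalMk ℝ s).trans ?_
    refine Cardinal.mk_insert_le.trans ?_
    rw [Cardinal.mk_singleton]
    norm_num
  · have h : AlgebraicIndependent ℝ (![mk (X 0), mk (X 1)] : Fin 2 → S2) := by
      rw [algebraicIndependent_iff]
      intro p hp
      apply map_injective (algebraMap ℝ ℂ) (algebraMap ℝ ℂ).injective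
      rw [map_zero]
      apply MvPolynomial.funext
      intro z
      obtain ⟨c, hc⟩ := IsAlgClosed.exists_pow_nat_eq (1 - z 0 ^ 2 - z 1 ^ 2) two_pos
      have := congrArg (ev ![z 0, z 1, c] (by simp [hc])) hp
      rw [map_zero, ← AlgHom.comp_apply, comp_aeval] at this
      rw [map_zero, eval_map, ← aeval_def, ← this]
      congr 2
      funext i
      fin_cases i <;> simp [ev_mk]
    simpa using h.cardinalMk_le_trdeg

end Pool.Agent.MP_d2168f_ag.Sq
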